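import Pool.Agent.Helper7_MWE.SWO

/-!
# Row STB of block MWE: the classes in the step
-/

set_option autoImplicit false

namespace Pool.Agent.MWE.H7

open Pool.Agent.Helper14_MV Pool.Agent.Helper2_MV Pool.Agent.MVD Pool.Agent.MWE

/-! ### the arrangement of the letters `x` -/

theorem xl_append (A B : List ℕ) : xl (A ++ B) = xl A ++ xl B := by
  unfold xl
  rw [List.filter_append, List.map_append]

theorem xl_flatMap (φ : ℕ → List ℕ) (l : List ℕ) : xl (l.flatMap φ) = l.flatMap fun a => xl (φ a) := by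
  induction l with
  | nil => rfl
  | cons a l ih => rw [List.flatMap_cons, List.flatMap_cons, xl_append, ih]

theorem mem_xl {D : List ℕ} {i : ℕ} : i ∈ xl D ↔ i < 4 ∧ 3 * i ∈ D := by
  unfold xl
  rw [List.mem_map]
  constructor
  · rintro ⟨v, hv, rfl⟩
    rw [List.mem_filter] at hv
    have h2 := of_decide_eq_true hv.2
    have h3 : 3 * (v / 3) = v := by omega
    rw [h3]
    exact ⟨by omega, hv.1⟩
  · rintro ⟨h1, h2⟩
    refine ⟨3 * i, ?_, by omega⟩
    rw [List.mem_filter]
    exact ⟨h2, decide_eq_true (by omega)⟩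

theorem xl_nil_of {D : List ℕ} (h : ∀ v ∈ D, ¬ isx v) : xl D = [] := by
  rw [List.eq_nil_iff_forall_not_mem]
  intro i hi
  obtain ⟨h1, h2⟩ := mem_xl.1 hi
  exact h _ h2 ⟨by omega, by omega⟩

/-- the first two letters `x` -/
theorem two_of {u v : ℕ} {l : List ℕ} : ∀ D : List ℕ, xl D = u :: v :: l →
    ∃ A h C : List ℕ, D = A ++ 3 * u :: (h ++ 3 * v :: C) := by
  have one_of : ∀ (w : ℕ) (l : List ℕ) (D : List ℕ), xl D = w :: l →
      ∃ A C : List ℕ, D = A ++ 3 * w :: C ∧ xl C = l := by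
    intro w l D
    induction D with
    | nil => intro h; exact absurd h (by simp [xl])
    | cons a D ih =>
      intro h
      by_cases ha : a % 3 = 0 ∧ a < 12
      · have h1 : xl (a :: D) = a / 3 :: xl D := by
          unfold xl
          rw [List.filter_cons_of_pos (by simpa using ha), List.map_cons]
        rw [h1, List.cons.injEq] at h
        refine ⟨[], D, ?_, h.2⟩
        have : 3 * w = a := by omega
        rw [this]
        rfl
      · have h1 : xl (a :: D) = xl D := by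
          unfold xl
          rw [List.filter_cons_of_neg (by simpa using ha)]
        rw [h1] at h
        obtain ⟨A, C, h2, h3⟩ := ih h
        exact ⟨a :: A, C, by rw [h2]; rfl, h3⟩
  intro D h
  obtain ⟨A, C, h1, h2⟩ := one_of u (v :: l) D h
  obtain ⟨A', C', h3, -⟩ := one_of v l C h2
  exact ⟨A, A', C', by rw [h1, h3]⟩

theorem infix_two {l : List ℕ} (h : l <:+: [0, 1, 2, 3]) (h2 : 2 ≤ l.length) :
    ∃ a l', a < 3 ∧ l = a :: (a + 1) :: l' := by
  have h1 := mem_ivs h
  simp only [ivs, List.mem_cons, List.not_mem_nil, or_false] at h1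
  rcases h1 with h1 | h1 | h1 | h1 | h1 | h1 | h1 | h1 | h1 | h1 | h1 <;> subst h1 <;>
    first
      | exact absurd h2 (by decide)
      | exact ⟨0, _, by norm_num, rfl⟩
      | exact ⟨1, _, by norm_num, rfl⟩
      | exact ⟨2, _, by norm_num, rfl⟩

/-- at most one image -/
theorem flat_one {s : List ℕ} (hs : s.Perm [0, 1, 2, 3]) (y : ℕ → List ℕ) {i0 : ℕ} (hi : i0 < 4)
    (h : ∀ i < 4, i ≠ i0 → y i = []) : s.flatMap y = y i0 := by
  have hm : i0 ∈ s := hs.mem_iff.2 (by
    simp only [List.mem_cons, List.not_mem_nil, or_false]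
    omega)
  have hlt : ∀ i ∈ s, i < 4 := by
    intro i hi
    have := hs.mem_iff.1 hi
    simp only [List.mem_cons, List.not_mem_nil, or_false] at this
    omega
  have hn : s.Nodup := hs.nodup_iff.2 (by decide)
  obtain ⟨A, C, rfl⟩ := List.append_of_mem hm
  rw [List.nodup_append, List.nodup_cons] at hn
  have hA : A.flatMap y = [] := by
    rw [List.flatMap_eq_nil_iff]
    intro i hi'
    refine h i (hlt i (List.mem_append_left _ hi')) ?_
    intro h1
    subst h1
    exact hn.2.2 i hi' i (by simp) rfl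
  have hC : C.flatMap y = [] := by
    rw [List.flatMap_eq_nil_iff]
    intro i hi'
    refine h i (hlt i (List.mem_append_right _ (List.mem_cons_of_mem _ hi'))) ?_
    intro h1
    subst h1
    exact hn.2.1.1 hi'
  rw [List.flatMap_append, List.flatMap_cons, hA, hC, List.nil_append, List.append_nil]

theorem perm_mem {s : List ℕ} (hs : s.Perm [0, 1, 2, 3]) {i : ℕ} : i ∈ s ↔ i < 4 := by
  rw [hs.mem_iff]
  simp only [List.mem_cons, List.not_mem_nil, or_false]
  omega

/-- equal lists with the separator block -/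
theorem split_eq {R R1 R2 R1' R2' : List ℕ} {r : ℕ} (hn : R.Nodup) (h1 : R = R1 ++ r :: R2)
    (h2 : R = R1' ++ r :: R2') : R1 = R1' := by
  have h3 : R1 ++ r :: R2 = R1' ++ r :: R2' := h1.symm.trans h2
  have hn1 := hn
  rw [h1, List.nodup_append, List.nodup_cons] at hn1
  have hn2 := hn
  rw [h2, List.nodup_append, List.nodup_cons] at hn2
  have k1 : r ∉ R1 := fun h => hn1.2.2 r h r (by simp) rfl
  have k2 : r ∉ R1' := fun h => hn2.2.2 r h r (by simp) rfl
  rcases List.append_eq_append_iff.1 h3 with ⟨as, h4, h5⟩ | ⟨bs, h4, h5⟩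
  · cases as with
    | nil => rw [h4, List.append_nil]
    | cons x as =>
      rw [List.cons_append, List.cons.injEq] at h5
      exact absurd (by rw [h4, ← h5.1]; simp) k2
  · cases bs with
    | nil => rw [h4, List.append_nil]
    | cons x bs =>
      rw [List.cons_append, List.cons.injEq] at h5
      exact absurd (by rw [h4, ← h5.1]; simp) k1

theorem l4_mem_x (c : List ℕ) {i : ℕ} (hi : i < 4) : 3 * i ∈ L4 c := by
  unfold L4
  have : i = 0 ∨ i = 1 ∨ i = 2 ∨ i = 3 := by omega
  rcases this with rfl | rfl | rfl | rfl <;> simp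

theorem l4_sep (c : List ℕ) {a : ℕ} (h : a ∈ L4 c) : a % 3 ≠ 2 := by
  have hcl : ∀ k u, cl k u % 3 ≠ 2 := by
    intro k u
    unfold cl
    split_ifs <;> omega
  unfold L4 cp at h
  simp only [List.mem_cons, List.mem_append, List.mem_map, List.not_mem_nil, or_false] at h
  rcases h with rfl | ⟨u, _, rfl⟩ | rfl | ⟨u, _, rfl⟩ | rfl | ⟨u, _, rfl⟩ | rfl
  · norm_num
  · exact hcl _ _
  · norm_num
  · exact hcl _ _
  · norm_num
  · exact hcl _ _
  · norm_num

theorem l4_flat (c : List ℕ) (Φ : ℕ → List ℕ) : (L4 c).flatMap Φ =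
    Φ 0 ++ ((cp 0 c).flatMap Φ ++ (Φ 3 ++ ((cp 1 c).flatMap Φ ++ (Φ 6 ++
      ((cp 2 c).flatMap Φ ++ Φ 9))))) := by
  unfold L4
  simp [List.flatMap_cons, List.flatMap_append]

theorem stb (hFce : FceStmt) (hFab : FabStmt) (hSpl : SplStmt) (hSep : SepStmt) (hFst : FstStmt)
    (hNxl : NxlStmt) : StbStmt := by
  intro β m R c s s' t t' M Q φ hS hs hs' hchk hF hF'
  have hnd : R.Nodup := hS.pR.nodup_iff.2 List.nodup_range
  obtain ⟨U, V1, V2, hU⟩ := hSpl m R c hS.pR hS.b01
  obtain ⟨P1, hP1⟩ : ∃ P1, P1 = M ++ U.flatMap φ := ⟨_, rfl⟩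
  obtain ⟨Λ, hΛ⟩ : ∃ Λ, Λ = (L4 c).flatMap φ := ⟨_, rfl⟩
  obtain ⟨V1', hV1⟩ : ∃ V1', V1' = V1.flatMap φ := ⟨_, rfl⟩
  obtain ⟨V2', hV2⟩ : ∃ V2', V2' = V2.flatMap φ := ⟨_, rfl⟩
  obtain ⟨YY, hYY⟩ : ∃ YY : List ℕ → List ℕ, YY = fun s => (s.map (fun i => 3 * i)).flatMap φ :=
    ⟨_, rfl⟩
  have hw : ∀ s, M ++ ((Fq R s c).flatMap φ ++ Q) =
      P1 ++ (YY s ++ (V1' ++ (Λ ++ (V2' ++ Q)))) := by
    intro s
    rw [hU s, hP1, hΛ, hV1, hV2, hYY]
    simp only [List.flatMap_append, List.append_assoc]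
  have hsep := hSep β m R c s t M Q φ hS hs hF
  have hx3 : ∀ i < 4, SFr (φ (3 * i)) := by
    intro i hi
    refine hsep (3 * i) ?_ (by omega)
    rw [hU s]
    refine List.mem_append_right _ (List.mem_append_left _ ?_)
    exact List.mem_map.2 ⟨i, (perm_mem hs).2 hi, rfl⟩
  have sfY : ∀ s : List ℕ, s.Perm [0, 1, 2, 3] → SFr (YY s) := by
    intro s hs a ha
    rw [hYY] at ha
    obtain ⟨b, hb, hab⟩ := List.mem_flatMap.1 ha
    obtain ⟨i, hi, rfl⟩ := List.mem_map.1 hb
    exact hx3 i ((perm_mem hs).1 hi) a hab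
  have sfΛ : SFr Λ := by
    intro a ha
    rw [hΛ] at ha
    obtain ⟨b, hb, hab⟩ := List.mem_flatMap.1 ha
    refine hsep b ?_ (l4_sep c hb) a hab
    rw [hU s]
    exact List.mem_append_right _ (List.mem_append_right _ (List.mem_append_right _
      (List.mem_append_left _ hb)))
  obtain ⟨⟨B, e, hBe, hsB, hse⟩, hall⟩ := hFst β m R c t _ hS hF
  have hFs : Fs m R t B e := hall B e hsB hse hBe
  have hall' := (hFst β m R c t' _ hS hF').2
  rw [hw] at hBe hall'
  by_cases hY0 : YY s = []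
  · -- the words are equal
    left
    have h1 : ∀ i < 4, φ (3 * i) = [] := by
      intro i hi
      rw [hYY] at hY0
      exact (List.flatMap_eq_nil_iff.1 hY0) (3 * i) (List.mem_map.2 ⟨i, (perm_mem hs).2 hi, rfl⟩)
    have h2 : YY s' = [] := by
      rw [hYY]
      refine List.flatMap_eq_nil_iff.2 ?_
      intro b hb
      obtain ⟨i, hi, rfl⟩ := List.mem_map.1 hb
      exact h1 i ((perm_mem hs').1 hi)
    have h3 : M ++ ((Fq R s' c).flatMap φ ++ Q) = M ++ ((Fq R s c).flatMap φ ++ Q) := by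
      rw [hw, hw, hY0, h2]
    rw [h3] at hF'
    rw [(hFab β m R c hS.can hS.pR hS.no).2.2 t t' _ hF hF']
  rcases hFce R B e P1 (YY s) (V1' ++ (Λ ++ (V2' ++ Q))) (fun r _ => hsB r) (sfY s hs) hY0
    hBe.symm with ⟨R1, r, R2, a, c', hR, hBr, hA, hC⟩ | ⟨a, c', he, hA, hC⟩
  swap
  · -- in the tail
    left
    have h1 := hall' B (a ++ (YY s' ++ c')) hsB (by
      intro u hu
      rcases List.mem_append.1 hu with hu | hu
      · exact hse u (by rw [he]; exact List.mem_append_left _ hu)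
      · rcases List.mem_append.1 hu with hu | hu
        · exact sfY s' hs' u hu
        · exact hse u (by
            rw [he]
            exact List.mem_append_right _ (List.mem_append_right _ hu))) (by
      rw [hA, hC]
      simp)
    rw [← hFs.x0, ← h1.x0]
  -- in the block `r`
  have hn := hnd
  rw [hR, List.nodup_append, List.nodup_cons] at hn
  have hr1 : r ∉ R1 := fun h => hn.2.2 r h r (by simp) rfl
  have hr2 : r ∉ R2 := hn.2.1.1
  have h1 := hall' (up B r (a ++ (YY s' ++ c'))) e (by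
    intro q
    unfold up
    by_cases hq : q = r
    · rw [if_pos hq]
      intro u hu
      rcases List.mem_append.1 hu with hu | hu
      · exact hsB r u (by rw [hBr]; exact List.mem_append_left _ hu)
      · rcases List.mem_append.1 hu with hu | hu
        · exact sfY s' hs' u hu
        · exact hsB r u (by
            rw [hBr]
            exact List.mem_append_right _ (List.mem_append_right _ hu))
    · rw [if_neg hq]
      exact hsB q) hse (by
    rw [hA, hC]
    have h2 : Bw R (up B r (a ++ (YY s' ++ c'))) =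
        Bw R1 B ++ ((a ++ (YY s' ++ c')) ++ (3 * r + 2) :: Bw R2 B) := by
      rw [hR]
      exact bw_up hr1 hr2 B _
    rw [h2]
    simp)
  by_cases hr0 : r = 0
  swap
  · left
    rw [← hFs.x0, ← h1.x0]
    have : up B r (a ++ (YY s' ++ c')) 0 = B 0 := by
      unfold up
      rw [if_neg (fun h => hr0 h.symm)]
    rw [this]
  subst hr0
  -- the images of the letters `x`
  obtain ⟨y, hy⟩ : ∃ y : ℕ → List ℕ, y = fun i => xl (φ (3 * i)) := ⟨_, rfl⟩
  have hxY : ∀ s, xl (YY s) = s.flatMap y := by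
    intro s
    rw [hYY, hy]
    show xl ((s.map (fun i => 3 * i)).flatMap φ) = _
    rw [xl_flatMap, List.flatMap_map]
  have ht : t = xl a ++ s.flatMap y ++ xl c' := by
    rw [← hFs.x0, hBr, xl_append, xl_append, hxY, List.append_assoc]
  have ht' : t' = xl a ++ s'.flatMap y ++ xl c' := by
    rw [← h1.x0]
    have : up B 0 (a ++ (YY s' ++ c')) 0 = a ++ (YY s' ++ c') := if_pos rfl
    rw [this, xl_append, xl_append, hxY, List.append_assoc]
  by_cases htwo : ∃ i j, i < 4 ∧ j < 4 ∧ i ≠ j ∧ y i ≠ [] ∧ y j ≠ []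
  swap
  · -- at most one image
    left
    have h2 : s.flatMap y = s'.flatMap y := by
      by_cases h3 : ∃ i0, i0 < 4 ∧ y i0 ≠ []
      · obtain ⟨i0, hi0, h4⟩ := h3
        have h5 : ∀ i < 4, i ≠ i0 → y i = [] := by
          intro i hi hne
          by_contra h6
          exact htwo ⟨i, i0, hi, hi0, hne, h6, h4⟩
        rw [flat_one hs y hi0 h5, flat_one hs' y hi0 h5]
      · have h5 : ∀ i < 4, i ≠ 0 → y i = [] := by
          intro i hi _
          by_contra h6
          exact h3 ⟨i, hi, h6⟩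
        rw [flat_one hs y (by norm_num : 0 < 4) h5, flat_one hs' y (by norm_num : 0 < 4) h5]
    rw [ht, ht', h2]
  obtain ⟨i1, i2, hi1, hi2, hne, hy1, hy2⟩ := htwo
  have htP : t.Perm [0, 1, 2, 3] := hF.1
  have htn : t.Nodup := htP.nodup_iff.2 (by decide)
  have hsubY : ∀ i < 4, ∀ u ∈ φ (3 * i), u ∈ YY s := by
    intro i hi u hu
    rw [hYY]
    exact List.mem_flatMap.2 ⟨3 * i, List.mem_map.2 ⟨i, (perm_mem hs).2 hi, rfl⟩, hu⟩
  have hsubB : ∀ i < 4, ∀ u ∈ φ (3 * i), u ∈ B 0 := by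
    intro i hi u hu
    rw [hBr]
    exact List.mem_append_right _ (List.mem_append_left _ (hsubY i hi u hu))
  have hsubL : ∀ i < 4, ∀ u ∈ φ (3 * i), u ∈ Λ := by
    intro i hi u hu
    rw [hΛ]
    exact List.mem_flatMap.2 ⟨3 * i, l4_mem_x c hi, hu⟩
  obtain ⟨z, hz⟩ := List.exists_mem_of_ne_nil _ hy1
  have hz' : z < 4 ∧ 3 * z ∈ φ (3 * i1) := by
    rw [hy] at hz
    exact mem_xl.1 hz
  have hzY : z ∈ xl (YY s) := mem_xl.2 ⟨hz'.1, hsubY i1 hi1 _ hz'.2⟩
  have hzΛ : z ∈ xl Λ := mem_xl.2 ⟨hz'.1, hsubL i1 hi1 _ hz'.2⟩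
  have hΛ0 : Λ ≠ [] := by
    intro h
    rw [h] at hzΛ
    simp [xl] at hzΛ
  -- the block of `Λ`
  have hBe2 : Bw R B ++ e = (P1 ++ (YY s ++ V1')) ++ (Λ ++ (V2' ++ Q)) := by
    rw [← hBe]
    simp
  rcases hFce R B e (P1 ++ (YY s ++ V1')) Λ (V2' ++ Q) (fun r _ => hsB r) sfΛ hΛ0 hBe2 with
    ⟨R1', r', R2', a', c1, hR', hBr', hA', -⟩ | ⟨a', c1, he', -, -⟩
  swap
  · have h2 : z ∈ xl e := by
      rw [he', xl_append, xl_append]
      exact List.mem_append_right _ (List.mem_append_left _ hzΛ)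
    rw [hFs.xe] at h2
    exact absurd h2 (by simp)
  have hr'R : r' ∈ R := by rw [hR']; simp
  have hr'1 : r' = 1 := by
    by_contra hr'1
    by_cases hr'0 : r' = 0
    · subst hr'0
      have h2 := split_eq hnd hR hR'
      rw [← h2, hA, List.append_assoc] at hA'
      have h3 : a' = a ++ (YY s ++ V1') := (List.append_cancel_left hA').symm
      have h4 : t = xl a ++ (xl (YY s) ++ (xl V1' ++ (xl Λ ++ xl c1))) := by
        rw [← hFs.x0, hBr', h3]
        simp only [xl_append, List.append_assoc]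
      rw [h4] at htn
      have h5 := (List.nodup_append.1 htn).2.1
      exact (List.nodup_append.1 h5).2.2 z hzY z
        (List.mem_append_right _ (List.mem_append_left _ hzΛ)) rfl
    · have h2 : z ∈ xl (B r') := by
        rw [hBr', xl_append, xl_append]
        exact List.mem_append_right _ (List.mem_append_left _ hzΛ)
      rw [hFs.xo r' hr'R hr'0 hr'1] at h2
      exact absurd h2 (by simp)
  subst hr'1
  -- an image which contains a letter `x` has one letter
  have hsingle : ∀ i < 4, ∀ v ∈ φ (3 * i), isx v → φ (3 * i) = [v] := by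
    intro i hi v hv hxv
    obtain ⟨G1, G2, hG⟩ := List.append_of_mem (l4_mem_x c hi)
    have hB1 : B 1 = (a' ++ G1.flatMap φ) ++ (φ (3 * i) ++ (G2.flatMap φ ++ c1)) := by
      rw [hBr', hΛ, hG, List.flatMap_append, List.flatMap_cons]
      simp
    obtain ⟨p, q, hpq⟩ := List.append_of_mem hv
    have hq : q = [] := by
      cases q with
      | nil => rfl
      | cons b q =>
        exfalso
        refine hFs.nb ((a' ++ G1.flatMap φ) ++ p) (q ++ (G2.flatMap φ ++ c1)) v b ?_ hxv ?_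
        · rw [hB1, hpq]
          simp
        · exact hsubB i hi b (by rw [hpq]; simp)
    have hp : p = [] := by
      rcases List.eq_nil_or_concat p with hp | ⟨p', b, hp⟩
      · exact hp
      · exfalso
        rw [List.concat_eq_append] at hp
        refine hFs.nc ((a' ++ G1.flatMap φ) ++ p') (q ++ (G2.flatMap φ ++ c1)) b v ?_ hxv ?_
        · rw [hB1, hpq, hp]
          simp
        · exact hsubB i hi b (by rw [hpq, hp]; simp)
    rw [hpq, hp, hq, List.nil_append]
  have hylen : ∀ i < 4, (y i).length ≤ 1 := by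
    intro i hi
    by_cases h2 : ∃ v ∈ φ (3 * i), isx v
    · obtain ⟨v, hv, hxv⟩ := h2
      rw [hy]
      show (xl (φ (3 * i))).length ≤ 1
      rw [hsingle i hi v hv hxv]
      unfold xl
      rw [List.length_map]
      exact (List.length_filter_le _ _).trans (by simp)
    · push Not at h2
      rw [hy]
      show (xl (φ (3 * i))).length ≤ 1
      rw [xl_nil_of h2]
      simp
  have hylt : ∀ i < 4, ∀ u ∈ y i, u < 4 := by
    intro i _ u hu
    rw [hy] at hu
    exact (mem_xl.1 hu).1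
  have hyΦ : ∀ i, y i = xl (φ (3 * i)) := fun i => by rw [hy]
  have hxΛ : xl Λ = y 0 ++ ((cp 0 c).flatMap (fun u => xl (φ u)) ++ (y 1 ++
      ((cp 1 c).flatMap (fun u => xl (φ u)) ++ (y 2 ++ ((cp 2 c).flatMap (fun u => xl (φ u)) ++
        y 3))))) := by
    rw [hΛ, xl_flatMap, l4_flat, hyΦ, hyΦ, hyΦ, hyΦ]
  have hinfΛ : xl Λ <:+: [0, 1, 2, 3] := by
    refine ⟨xl a', xl c1, ?_⟩
    rw [← hFs.x1, hBr', xl_append, xl_append, List.append_assoc]
  have hlen : 2 ≤ (xl Λ).length := by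
    have l1 : 1 ≤ (y i1).length := List.length_pos_of_ne_nil hy1
    have l2 : 1 ≤ (y i2).length := List.length_pos_of_ne_nil hy2
    have l3 : (xl Λ).length ≥ (y 0).length + (y 1).length + (y 2).length + (y 3).length := by
      rw [hxΛ]
      simp only [List.length_append]
      omega
    have e1 : i1 = 0 ∨ i1 = 1 ∨ i1 = 2 ∨ i1 = 3 := by omega
    have e2 : i2 = 0 ∨ i2 = 1 ∨ i2 = 2 ∨ i2 = 3 := by omega
    rcases e1 with rfl | rfl | rfl | rfl <;> rcases e2 with rfl | rfl | rfl | rfl <;> omega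
  obtain ⟨a0, l', ha0, hl'⟩ := infix_two hinfΛ hlen
  obtain ⟨A0, h0, C0, hΛ2⟩ := two_of Λ hl'
  have hnx := hNxl m R c s t M Q φ B e hS.can hS.pR hs htP (by rw [hw]; exact hBe) hFs hsep
    ⟨R1', R2', a', c1, hR', by rw [← hΛ]; exact hBr', U ++ (s.map (fun i => 3 * i) ++ V1), V2,
      by rw [hU s]; simp, by
        rw [← hA', hP1, hYY, hV1]
        simp only [List.flatMap_append, List.append_assoc]⟩ hsubB
    ⟨a0, A0, h0, C0, ha0, by rw [← hΛ]; exact hΛ2⟩
  have hcp : ∀ k < 3, (cp k c).flatMap (fun u => xl (φ u)) = [] := by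
    intro k hk
    rw [List.flatMap_eq_nil_iff]
    intro u hu
    exact xl_nil_of (hnx k hk u hu)
  rw [hcp 0 (by norm_num), hcp 1 (by norm_num), hcp 2 (by norm_num)] at hxΛ
  simp only [List.nil_append] at hxΛ
  have hinf : y 0 ++ y 1 ++ y 2 ++ y 3 <:+: [0, 1, 2, 3] := by
    have : y 0 ++ y 1 ++ y 2 ++ y 3 = xl Λ := by
      rw [hxΛ]
      simp
    rw [this]
    exact hinfΛ
  have hfin := fin_step hchk y hylen hylt hinf htP ht (fun i hi => (perm_mem hs).1 hi)
    (fun i hi => (perm_mem hs').1 hi)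
  rw [← ht'] at hfin
  rcases hfin with h | h
  · exact Or.inl h.symm
  · exact Or.inr h

end Pool.Agent.MWE.H7
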